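import Pool.Agent.H28.RE.T0
import Pool.Agent.H12.RS.Cf

/-!
# H28.RE.Face: the statements (T0) and (Np) for configurations
-/

set_option autoImplicit false

namespace Pool.Agent.H28.RE

open Finset Pool.Agent.H93.EA Pool.Agent.H69L.TP Pool.Agent.H12.RS

variable {α : Type} [Fintype α] {N : ℕ} {ρ : ℕ → α → ℕ}

/-- All gaps except the gap 0 are thin. -/
theorem faceT0 (h : ASeq N ρ) {m c r : ℕ} (hc : 0 < c) (hcr : c < r) {τ : ℕ → ℕ}
    (hτ : Cfg (c + r) N τ) (hth : ∀ g < c + r, g ≠ 0 → gq (c + r) N τ g ≤ 1) :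
    FH ρ m c r N τ 0 ≤ -(Fintype.card α : ℝ) + 4 * (c + r : ℕ) := by
  have h1 := t0 (m := m) h hc hcr.le hτ (eg (c + r) N τ) (fun g hg hg' => by
    have h2 := hth g hg' (by omega)
    unfold gq at h2
    rw [if_neg (by omega)] at h2
    omega)
  unfold FH
  refine le_trans (le_of_eq ?_) h1
  refine Finset.sum_congr rfl fun a _ => ?_
  rw [hf_zero]
  rfl

/-- All gaps except the gaps 0 and c are thin, and the gap c is not empty. -/
theorem faceNp (h : ASeq N ρ) {m c r : ℕ} (hc : 0 < c) (hcr : c < r) {τ : ℕ → ℕ}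
    (hτ : Cfg (c + r) N τ) (h1 : 1 ≤ gq (c + r) N τ c)
    (hth : ∀ g < c + r, g ≠ 0 → g ≠ c → gq (c + r) N τ g ≤ 1) :
    FH ρ m c r N τ c ≤ 2 * (c + r : ℕ) := by
  have hI : c ∉ eg (c + r) N τ := by
    rw [mem_eg hτ (by omega)]
    omega
  have h2 := np (m := m) h hcr hτ hI (fun g hg hg' => by
    have h2 := hth g hg' (by omega) (by omega)
    unfold gq at h2
    rw [if_neg (by omega)] at h2
    omega)
  unfold FH
  refine le_trans (le_of_eq ?_) h2
  refine Finset.sum_congr rfl fun a _ => ?_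
  rw [hf_lt _ (by omega) hcr]
  rfl

end Pool.Agent.H28.RE
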