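import Pool.Agent.H12.RS.Def
import Pool.Agent.H69L.TP.Top

/-!
# H28.RE.T0: configurations with thin gaps

The two degenerate configurations of the labelling argument (all gaps but the gap 0 thin; all gaps but
the gaps 0 and c thin).
-/

set_option autoImplicit false

namespace Pool.Agent.H28.RE

open Finset Pool.Agent.H93.EA Pool.Agent.H69L.TP Pool.Agent.H12 Pool.Agent.H12.RS
open Pool.Agent.H85.TK (zs be be_ex be_gt be_le rel Cb cb_const)

/-- The marks of a word. -/
def zz (c r : ℕ) (I : Finset ℕ) (w : ℕ → Bool) : Mk :=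
  { Z := X c r I w ∪ X c r I (fun i => !w i)
    Wp := W c r I (fun i => !w i)
    Wm := W c r I w }

/-! ### words -/

theorem rel_one {c : ℕ} {w : ℕ → Bool} {T : ℕ} (h : w T = true) : rel c w T = 0 := by
  unfold rel
  rw [if_neg]
  rintro ⟨_, h1⟩
  rw [h] at h1
  exact Bool.noConfusion h1

theorem sr_zero_of_one {c r : ℕ} {I : Finset ℕ} {w : ℕ → Bool} (h : ∀ i < c, w i = true) :
    ∀ T, sr c r I w T = 0 := by
  intro T
  induction T with
  | zero => rfl
  | succ T ih =>
    have h1 := sr_succ c r I w T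
    have h2 : rel c w T = 0 := by
      by_cases h3 : T < c
      · exact rel_one (h T h3)
      · unfold rel
        rw [if_neg]
        rintro ⟨h4, _⟩
        exact h3 h4
    omega

theorem X_empty_of_one {c r : ℕ} {I : Finset ℕ} {w : ℕ → Bool} (h : ∀ i < c, w i = true) :
    X c r I w = ∅ := by
  unfold X
  rw [filter_eq_empty_iff]
  rintro T hT ⟨_, _, h1⟩
  rw [sr_zero_of_one h] at h1
  have h2 := th_pos c r I T
  have h3 : rel c w T = 0 := by
    by_cases h3 : T < c
    · exact rel_one (h T h3)
    · unfold rel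
      rw [if_neg]
      rintro ⟨h4, _⟩
      exact h3 h4
  omega

theorem X_empty_of_zero {c r : ℕ} {I : Finset ℕ} {w : ℕ → Bool} (h : ∀ i < c + r, w i = false) :
    X c r I w = ∅ := by
  unfold X
  rw [filter_eq_empty_iff]
  rintro T hT ⟨h1, _⟩
  rw [h (c + T) (by have := mem_range.1 hT; omega)] at h1
  exact Bool.noConfusion h1

theorem W_empty_of_one {c r : ℕ} {I : Finset ℕ} {w : ℕ → Bool} (h : ∀ i < c, w i = true) :
    W c r I w = ∅ := by
  unfold W
  rw [filter_eq_empty_iff]
  intro f hf h1
  have hA : A c r I w = 0 := sr_zero_of_one h r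
  unfold P at h1
  rw [hA, Nat.zero_min, Nat.zero_min] at h1
  have := ye_gt r c I f
  omega

theorem A_zero {c r : ℕ} (hcr : c ≤ r) {I : Finset ℕ} {w : ℕ → Bool} (h : ∀ i < c + r, w i = false) :
    A c r I w = c := by
  have key : ∀ T ≤ r, sr c r I w T = min T c := by
    intro T
    induction T with
    | zero =>
      intro _
      rw [Nat.zero_min]
      rfl
    | succ T ih =>
      intro hT
      have h1 := sr_succ c r I w T
      have h2 := ih (by omega)
      have h3 : RS.mk c r I w T = 0 := by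
        unfold RS.mk
        rw [if_neg]
        rintro ⟨h4, _⟩
        rw [h (c + T) (by omega)] at h4
        exact Bool.noConfusion h4
      have h4 : rel c w T = if T < c then 1 else 0 := by
        unfold rel
        by_cases h5 : T < c
        · rw [if_pos ⟨h5, h T (by omega)⟩, if_pos h5]
        · rw [if_neg (fun h6 => h5 h6.1), if_neg h5]
      rw [h3, h2, h4] at h1
      split_ifs at h1 <;> omega
  unfold A
  rw [key r le_rfl]
  omega

theorem zs_zero {w : ℕ → Bool} {b : ℕ} (h : ∀ i < b, w i = false) : zs w 0 b = b := by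
  unfold zs
  rw [filter_true_of_mem, Nat.card_Ico, Nat.sub_zero]
  intro i hi
  exact h i (mem_Ico.1 hi).2

theorem W_full_of_zero {c r : ℕ} (hcr : c ≤ r) {I : Finset ℕ} {w : ℕ → Bool}
    (h : ∀ i < c + r, w i = false) : W c r I w = range c := by
  unfold W
  rw [filter_true_of_mem]
  intro f hf
  have hf' := mem_range.1 hf
  have h1 := ye_le (r := r) (I := I) hf'
  have h2 := ye_gt r c I f
  have h3 := ys_le r I f
  unfold P
  rw [A_zero hcr h, zs_zero (fun i hi => h i (by omega)), zs_zero (fun i hi => h i (by omega))]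
  omega

/-- The marks of a constant word: no base, the last window. -/
theorem zz_const {c r : ℕ} (hc : 0 < c) (hcr : c ≤ r) {I : Finset ℕ} {w : ℕ → Bool}
    (h : ∀ i < c + r, w i = w 0) (j : ℕ) :
    bm (zz c r I w) j = 0 ∧ ∀ f < c, wm (zz c r I w) f = 1 := by
  cases h0 : w 0 with
  | false =>
    have h1 : ∀ i < c + r, w i = false := fun i hi => (h i hi).trans h0
    have h2 : ∀ i < c, (fun i => !w i) i = true := fun i hi => by
      simp [h1 i (by omega)]
    constructor
    · unfold bm zz
      simp [X_empty_of_zero h1, X_empty_of_one h2]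
    · intro f hf
      unfold wm zz
      simp [W_full_of_zero hcr h1, W_empty_of_one h2, hf]
  | true =>
    have h1 : ∀ i < c + r, w i = true := fun i hi => (h i hi).trans h0
    have h2 : ∀ i < c + r, (fun i => !w i) i = false := fun i hi => by
      simp [h1 i hi]
    have h3 : ∀ i < c, w i = true := fun i hi => h1 i (by omega)
    constructor
    · unfold bm zz
      simp [X_empty_of_zero h2, X_empty_of_one h3]
    · intro f hf
      unfold wm zz
      simp [W_full_of_zero hcr h2, W_empty_of_one h3, hf]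

/-! ### thin gaps -/

section

variable {α : Type} [Fintype α] {N : ℕ} {ρ : ℕ → α → ℕ}

/-- A point which is not near the halving lines has the same side on both lines of a thin gap. -/
theorem wd_thin (h : ASeq N ρ) {m C : ℕ} {τ : ℕ → ℕ} (hτ : Cfg C N τ) {a : α}
    (ha : a ∉ nr ρ m C τ) {g : ℕ} (h0 : 0 < g) (hg : g < C) (hth : τ g ≤ τ (g - 1) + 1) :
    wd ρ m C τ a g = wd ρ m C τ a (g - 1) := by
  have h1 := hτ.mono (g - 1) g (by omega) hg
  have h2 := hτ.le g
  have h3 : ρ (τ (g - 1)) a ≠ m - 1 ∧ ρ (τ (g - 1)) a ≠ m := by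
    constructor
    · intro h4
      apply ha
      unfold nr
      rw [mem_filter]
      exact ⟨mem_univ _, g - 1, by omega, Or.inl h4⟩
    · intro h4
      apply ha
      unfold nr
      rw [mem_filter]
      exact ⟨mem_univ _, g - 1, by omega, Or.inr h4⟩
  have h4 : τ g = τ (g - 1) ∨ (τ g = τ (g - 1) + 1 ∧ τ (g - 1) < N) := by omega
  have h5 := side_eq h h3.1 h3.2 h4
  unfold wd
  rw [decide_eq_decide]
  constructor
  · rintro ⟨_, h6⟩
    exact ⟨by omega, h5.1 h6⟩
  · rintro ⟨_, h6⟩
    exact ⟨hg, h5.2 h6⟩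

/-- On an interval of lines with thin gaps such a word is constant. -/
theorem wd_thin_const (h : ASeq N ρ) {m C : ℕ} {τ : ℕ → ℕ} (hτ : Cfg C N τ) {a : α}
    (ha : a ∉ nr ρ m C τ) {x y : ℕ} (hy : y ≤ C)
    (hth : ∀ g, x < g → g < y → τ g ≤ τ (g - 1) + 1) {i : ℕ} (hi : x ≤ i) (hi' : i < y) :
    wd ρ m C τ a i = wd ρ m C τ a x := by
  induction i, hi using Nat.le_induction with
  | base => rfl
  | succ i hi ih =>
    have h1 := wd_thin h hτ ha (Nat.succ_pos i) (by omega : i + 1 < C) (hth (i + 1) (by omega) hi')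
    rw [h1]
    exact ih (by omega)

/-- A sum over the points, bounded outside of the near points. -/
theorem sum_near {ρ : ℕ → α → ℕ} (h : ASeq N ρ) {m C : ℕ} {τ : ℕ → ℕ} (hτ : Cfg C N τ)
    (f : α → ℝ) {x B : ℝ} (hB : 0 ≤ B) (h1 : ∀ a, a ∉ nr ρ m C τ → f a ≤ x) (h2 : ∀ a, f a ≤ x + B) :
    ∑ a, f a ≤ Fintype.card α * x + 2 * C * B := by
  classical
  have h3 : ∀ a, f a ≤ x + if a ∈ nr ρ m C τ then B else 0 := by
    intro a
    split_ifs with h4
    · exact h2 a
    · rw [add_zero]
      exact h1 a h4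
  refine (Finset.sum_le_sum fun a _ => h3 a).trans ?_
  rw [Finset.sum_add_distrib, Finset.sum_const, Finset.card_univ, nsmul_eq_mul]
  have h5 : ∑ a, (if a ∈ nr ρ m C τ then B else 0) = (nr ρ m C τ).card * B := by
    rw [Finset.sum_ite_mem, Finset.univ_inter, Finset.sum_const, nsmul_eq_mul]
  rw [h5]
  have h6 := card_nr (m := m) (C := C) h hτ.le
  have h7 : ((nr ρ m C τ).card : ℝ) ≤ 2 * C := by exact_mod_cast h6
  have h8 := mul_le_mul_of_nonneg_right h7 hB
  linarith

/-- **(T0)** All gaps except the gap 0 are thin: the field at the gap 0 is `- n + O(1)`. -/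
theorem t0 (h : ASeq N ρ) {m c r : ℕ} (hc : 0 < c) (hcr : c ≤ r) {τ : ℕ → ℕ}
    (hτ : Cfg (c + r) N τ) (I : Finset ℕ)
    (hth : ∀ g, 0 < g → g < c + r → τ g ≤ τ (g - 1) + 1) :
    ∑ a, (bm (zz c r I (wd ρ m (c + r) τ a)) 0 - wm (zz c r I (wd ρ m (c + r) τ a)) (c - 1)) ≤
      - (Fintype.card α : ℝ) + 4 * (c + r : ℕ) := by
  have h1 := sum_near (m := m) h hτ
    (fun a => bm (zz c r I (wd ρ m (c + r) τ a)) 0 - wm (zz c r I (wd ρ m (c + r) τ a)) (c - 1))
    (x := -1) (B := 2) (by norm_num) (fun a ha => by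
      have h2 := zz_const hc hcr (I := I) (w := wd ρ m (c + r) τ a)
        (fun i hi => wd_thin_const h hτ ha le_rfl (fun g hg hg' => hth g hg hg') (Nat.zero_le i) hi) 0
      have h3 := h2.2 (c - 1) (by omega)
      simp only [h2.1, h3]
      norm_num) (fun a => by
      have h2 := bm_le (zz c r I (wd ρ m (c + r) τ a)) 0
      have h3 := wm_nonneg (zz c r I (wd ρ m (c + r) τ a)) (c - 1)
      linarith)
  have h2 : (Fintype.card α : ℝ) * (-1) + 2 * ((c + r : ℕ) : ℝ) * 2 =
      - (Fintype.card α : ℝ) + 4 * ((c + r : ℕ) : ℝ) := by ring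
  rw [← h2]
  exact h1

/-! ### the gap c -/

theorem be_le_of_notMem {I : Finset ℕ} {r T g : ℕ} (h : T < g) (h' : g ∉ I) : be I r T ≤ g :=
  Nat.find_min' (be_ex I r T) ⟨h, Or.inl h'⟩

/-- Zeros then ones: no mark at the step `c`. -/
theorem notMem_X {c r : ℕ} {I : Finset ℕ} (hI : c ∉ I) {w : ℕ → Bool}
    (h : ∀ T < c, w (c + T) = w (c + c)) : c ∉ X c r I w := by
  intro h1
  have h2 : w (c + c) = true := X_one h1
  have key : ∀ T ≤ c, sr c r I w T = 0 := by
    intro T
    induction T with
    | zero =>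
      intro _
      rfl
    | succ T ih =>
      intro hT
      have h3 := ih (by omega)
      have h4 := sr_succ c r I w T
      by_cases h5 : w T = true
      · rw [rel_one h5] at h4
        omega
      · have h5' : w T = false := by
          cases hw : w T with
          | false => rfl
          | true => exact absurd hw h5
        have h6 : th c r I T = 1 := by
          unfold th
          rw [if_pos (by omega)]
          have := be_le_of_notMem (r := r) (T := T) (by omega : T < c) hI
          omega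
        have h7 : rel c w T = 1 := by
          unfold rel
          rw [if_pos ⟨by omega, h5'⟩]
        have h8 : RS.mk c r I w T = 1 := by
          unfold RS.mk
          rw [if_pos]
          refine ⟨(h T (by omega)).trans h2, fun _ => h5', ?_⟩
          omega
        omega
  unfold X at h1
  have h3 := (mem_filter.1 h1).2.2.2
  rw [key c le_rfl] at h3
  have h4 := th_pos c r I c
  have h5 : rel c w c = 0 := by
    unfold rel
    rw [if_neg (fun h6 => lt_irrefl _ h6.1)]
  omega

/-- **(Np)** All gaps except the gaps 0 and c are thin, the gap c is not empty: the field at the gap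
c is at most `O(1)`. -/
theorem np (h : ASeq N ρ) {m c r : ℕ} (hcr : c < r) {τ : ℕ → ℕ}
    (hτ : Cfg (c + r) N τ) {I : Finset ℕ} (hI : c ∉ I)
    (hth : ∀ g, c < g → g < c + r → τ g ≤ τ (g - 1) + 1) :
    ∑ a, (bm (zz c r I (wd ρ m (c + r) τ a)) c - bm (zz c r I (wd ρ m (c + r) τ a)) (c - 1)) ≤
      2 * (c + r : ℕ) := by
  have h1 := sum_near (m := m) h hτ
    (fun a => bm (zz c r I (wd ρ m (c + r) τ a)) c - bm (zz c r I (wd ρ m (c + r) τ a)) (c - 1))
    (x := 0) (B := 1) (by norm_num) (fun a ha => by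
      have h2 : ∀ T < r, wd ρ m (c + r) τ a (c + T) = wd ρ m (c + r) τ a c := fun T hT =>
        wd_thin_const h hτ ha le_rfl (fun g hg hg' => hth g hg hg') (Nat.le_add_right c T) (by omega)
      have h3 : ∀ T < c, wd ρ m (c + r) τ a (c + T) = wd ρ m (c + r) τ a (c + c) := fun T hT => by
        rw [h2 T (by omega), h2 c hcr]
      have h4 : c ∉ (zz c r I (wd ρ m (c + r) τ a)).Z := by
        unfold zz
        rw [mem_union]
        rintro (h5 | h5)
        · exact notMem_X hI h3 h5
        · exact notMem_X hI (fun T hT => by simp only [h3 T hT]) h5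
      have h5 : bm (zz c r I (wd ρ m (c + r) τ a)) c = 0 := by
        unfold bm
        rw [if_neg h4]
      have h6 := bm_nonneg (zz c r I (wd ρ m (c + r) τ a)) (c - 1)
      simp only [h5]
      linarith) (fun a => by
      have h2 := bm_le (zz c r I (wd ρ m (c + r) τ a)) c
      have h3 := bm_nonneg (zz c r I (wd ρ m (c + r) τ a)) (c - 1)
      linarith)
  have h2 : (Fintype.card α : ℝ) * 0 + 2 * ((c + r : ℕ) : ℝ) * 1 = 2 * ((c + r : ℕ) : ℝ) := by ring
  rw [← h2]
  exact h1

end

end Pool.Agent.H28.RE
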